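import Pool.Agent.H97.UG.Asm2
import Pool.Agent.H37.UG.NumII

/-!
# The numbers of block A with a small constant
-/

set_option autoImplicit false

open Real

namespace Pool.Agent.H97.UG

open Pool.Agent.H47.KB (wt Mon)
open Pool.Agent.H37.KA (Packed)

/-- A-NUM with a small constant. -/
theorem numeric2 {n d : ℕ} (hn : 2 ≤ n) (hd : 100 * (n : ℝ) ^ 2 * (5 + log n) ^ 2 ≤ d) :
    ∃ k : ℕ, 1 ≤ k ∧ k + n + 1 ≤ d ∧ ∀ c₀ : ℕ, ∃ m b p l c : ℕ, p * (5 * k) < b ∧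
      (c : ℤ) + 2 * m + b ≤ l * ((d : ℤ) - n - 2) ∧ c₀ ≤ c ∧ ∀ rg rb h : ℕ,
        Nat.card {a : Fin k × Fin n →₀ ℕ // Finsupp.weight (wt n k) a = m ∧ Packed l a} ≤ rg →
        rg + rb = Nat.card {a : Fin k × Fin n →₀ ℕ // Finsupp.weight (wt n k) a = m} →
        rg * Pool.Agent.H47.UG.hyp n d c ≤ h + (b + 2 * m + c₀) *
          (rb * Pool.Agent.H47.UG.hyp (n - 1) d (d * m + c₀)) →
        Nat.card (Mon n k m (p + 1)) * Pool.Agent.H47.UG.hyp n d ((d - 2) * m - b) < h := by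
  have hn0 : (0 : ℝ) ≤ n := Nat.cast_nonneg n
  have hx0 : 0 ≤ log (n : ℝ) := log_natCast_nonneg n
  obtain ⟨z, hz, hz1, hii⟩ := Pool.Agent.H37.UG.num_ii n hn
  exact ⟨Pool.Agent.H37.UG.kk n, numeric_of hn (Nat.le_ceil _)
    (Nat.ceil_lt_add_one (by positivity)).le hd z hz hz1 hii⟩

/-- the other form of the bound -/
theorem bound_of {n d : ℕ} (hn : 2 ≤ n) (hd : 1200 * (n : ℝ) ^ 2 * (1 + log n) ^ 2 ≤ d) :
    100 * (n : ℝ) ^ 2 * (5 + log n) ^ 2 ≤ d := by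
  refine le_trans ?_ hd
  have h1 : 69 / 100 ≤ log (n : ℝ) := by
    have h1 : log 2 ≤ log (n : ℝ) := log_le_log (by norm_num) (by exact_mod_cast hn)
    have := log_two_gt
    linarith
  have h2 : (5 + log (n : ℝ)) ^ 2 ≤ 12 * (1 + log n) ^ 2 := by nlinarith
  have h3 := mul_le_mul_of_nonneg_left h2 (by positivity : (0 : ℝ) ≤ 100 * (n : ℝ) ^ 2)
  linarith

end Pool.Agent.H97.UG
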