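import Mathlib

/-!
# Two numerical inequalities: the degree of the monomials and the choice of `β`
-/

set_option autoImplicit false

open Real

namespace Pool.Agent.H97.UG

theorem log_two_lt : log 2 < 6931472 / 10000000 := by
  have := log_two_lt_d9
  norm_num at this ⊢
  linarith

theorem log_two_gt : 6931471 / 10000000 < log 2 := by
  have := log_two_gt_d9
  norm_num at this ⊢
  linarith

theorem log_three_le : log 3 ≤ 11009 / 10000 := by
  have h1 : 17 * log 3 ≤ 27 * log 2 := by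
    have a1 : (17 : ℝ) * log 3 = log (3 ^ 17) := by rw [log_pow]; norm_num
    have a2 : (27 : ℝ) * log 2 = log (2 ^ 27) := by rw [log_pow]; norm_num
    rw [a1, a2]
    exact log_le_log (by norm_num) (by norm_num)
  have h3 := log_two_lt
  linarith

theorem log_five_le : log 5 ≤ 16174 / 10000 := by
  have h1 : 3 * log 5 ≤ 7 * log 2 := by
    have a1 : (3 : ℝ) * log 5 = log (5 ^ 3) := by rw [log_pow]; norm_num
    have a2 : (7 : ℝ) * log 2 = log (2 ^ 7) := by rw [log_pow]; norm_num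
    rw [a1, a2]
    exact log_le_log (by norm_num) (by norm_num)
  have h3 := log_two_lt
  linarith

theorem log_five_ge : 15843 / 10000 ≤ log 5 := by
  have h1 : 16 * log 2 ≤ 7 * log 5 := by
    have a1 : (7 : ℝ) * log 5 = log (5 ^ 7) := by rw [log_pow]; norm_num
    have a2 : (16 : ℝ) * log 2 = log (2 ^ 16) := by rw [log_pow]; norm_num
    rw [a1, a2]
    exact log_le_log (by norm_num) (by norm_num)
  have h3 := log_two_gt
  linarith

/-- tangents of the logarithm -/
theorem log_k_le {n k : ℕ} (hn : 2 ≤ n) (hk0 : 0 < k)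
    (hk' : (k : ℝ) ≤ n * (15 + 5 / 2 * log n) + 1) (c : ℝ) (hc : 0 < c) :
    log k ≤ log n + log c - 1 + (31 / 2 + 5 / 2 * log n) / c := by
  have hn' : (2 : ℝ) ≤ n := by exact_mod_cast hn
  have hn0 : (0 : ℝ) < n := by linarith
  have hk0' : (0 : ℝ) < k := by exact_mod_cast hk0
  have h1 := log_le_sub_one_of_pos (show 0 < (k : ℝ) / (n * c) by positivity)
  rw [log_div hk0'.ne' (by positivity), log_mul hn0.ne' hc.ne'] at h1
  have h2 : (k : ℝ) / (n * c) ≤ (31 / 2 + 5 / 2 * log n) / c := by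
    rw [div_le_div_iff₀ (by positivity) hc]
    have h3 : (k : ℝ) ≤ (31 / 2 + 5 / 2 * log n) * n := by linarith
    calc (k : ℝ) * c ≤ ((31 / 2 + 5 / 2 * log n) * n) * c := mul_le_mul_of_nonneg_right h3 hc.le
      _ = _ := by ring
  linarith

theorem log_n_le (n : ℕ) (hn : 2 ≤ n) (c : ℝ) (hc : 0 < c) : log n ≤ log c - 1 + n / c := by
  have hn0 : (0 : ℝ) < n := by exact_mod_cast (by omega : 0 < n)
  have h1 := log_le_sub_one_of_pos (show 0 < (n : ℝ) / c by positivity)
  rw [log_div hn0.ne' hc.ne'] at h1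
  linarith

/-- (i) the degree -/
theorem num_i (n k : ℕ) (hn : 2 ≤ n) (hk : (n : ℝ) * (15 + 5 / 2 * log n) ≤ k)
    (hk' : (k : ℝ) ≤ n * (15 + 5 / 2 * log n) + 1) :
    exp 1 * √((k * n - 1 : ℕ) : ℝ) / 5 * (10 * (k : ℝ) ^ (9 / 10 : ℝ)) ^ n *
      exp (-(9 / 10 * ((66 / 5 + 10 / 3 * log n) * n))) < (1 / (18 * k * n : ℝ)) ^ n := by
  have hn' : (2 : ℝ) ≤ n := by exact_mod_cast hn
  have hn0 : (0 : ℝ) < n := by linarith
  have hx0 : 0 ≤ log (n : ℝ) := log_nonneg (by linarith)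
  have hkpos : (0 : ℝ) < k := lt_of_lt_of_le (by positivity) hk
  have hk0 : 0 < k := by exact_mod_cast hkpos
  have t1 := log_k_le hn hk0 hk'
  set x : ℝ := log n with hx
  set y : ℝ := log k with hy
  -- everything as exponentials
  have a1 : √((k * n - 1 : ℕ) : ℝ) ≤ exp ((x + y) / 2) := by
    have e1 : ((k * n - 1 : ℕ) : ℝ) ≤ exp (x + y) := by
      rw [exp_add, hx, hy, exp_log hn0, exp_log hkpos]
      have : ((k * n - 1 : ℕ) : ℝ) ≤ ((k * n : ℕ) : ℝ) := by exact_mod_cast Nat.sub_le _ _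
      refine this.trans (le_of_eq ?_)
      push_cast
      ring
    calc √((k * n - 1 : ℕ) : ℝ) ≤ √(exp (x + y)) := sqrt_le_sqrt e1
      _ = exp ((x + y) / 2) := (exp_half _).symm
  have a2 : (10 * (k : ℝ) ^ (9 / 10 : ℝ)) ^ n = exp (n * (log 10 + 9 / 10 * y)) := by
    rw [exp_nat_mul, exp_add, exp_log (by norm_num), rpow_def_of_pos hkpos, hy]
    congr 3
    ring
  have a3 : (1 / (18 * k * n : ℝ)) ^ n = exp (-(n * (log 18 + y + x))) := by
    rw [exp_neg, exp_nat_mul, exp_add, exp_add, exp_log (by norm_num), hy, hx, exp_log hkpos, exp_log hn0,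
      one_div, inv_pow]
  have a4 : (1 / 5 : ℝ) = exp (-log 5) := by
    rw [exp_neg, exp_log (by norm_num), one_div]
  have l2 := log_two_lt
  have l2' := log_two_gt
  have l3 := log_three_le
  have l5 := log_five_le
  have l5' := log_five_ge
  have l10 : log 10 = log 2 + log 5 := by
    rw [← log_mul (by norm_num) (by norm_num)]
    norm_num
  have l18 : log 18 = log 2 + 2 * log 3 := by
    have : (18 : ℝ) = 2 * 3 ^ 2 := by norm_num
    rw [this, log_mul (by norm_num) (by norm_num), log_pow]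
    norm_num
  have key : 1 + (x + y) / 2 - log 5 + n * (log 10 + 9 / 10 * y) - 9 / 10 * ((66 / 5 + 10 / 3 * x) * n) <
      -(n * (log 18 + y + x)) := by
    rcases Nat.lt_or_ge n 8 with h8 | h8
    · -- small `n`
      have hn8 : (n : ℝ) ≤ 8 := by exact_mod_cast (by omega : n ≤ 8)
      have t2 := t1 16 (by norm_num)
      have l16 : log 16 = 4 * log 2 := by
        have : (16 : ℝ) = 2 ^ 4 := by norm_num
        rw [this, log_pow]
        norm_num
      have hx8 : x ≤ 3 * log 2 := by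
        have : log (8 : ℝ) = 3 * log 2 := by
          have : (8 : ℝ) = 2 ^ 3 := by norm_num
          rw [this, log_pow]
          norm_num
        rw [← this]
        exact log_le_log hn0 hn8
      have t3 := log_n_le n hn 2 (by norm_num)
      rw [← hx] at t3
      have t4 : log 10 + log 18 + 19 / 10 * y + x - 9 / 10 * (66 / 5 + 10 / 3 * x) ≤ -1 := by
        rw [l10, l18]
        rw [l16] at t2
        linarith
      have t5 := mul_le_mul_of_nonneg_left t4 hn0.le
      rw [l16] at t2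
      linarith
    · have hn8 : (8 : ℝ) ≤ n := by exact_mod_cast h8
      have t2 := t1 48 (by norm_num)
      have l48 : log 48 = 4 * log 2 + log 3 := by
        have : (48 : ℝ) = 2 ^ 4 * 3 := by norm_num
        rw [this, log_mul (by norm_num) (by norm_num), log_pow]
        norm_num
      have t3 := log_n_le n hn 8 (by norm_num)
      rw [← hx] at t3
      have l8 : log 8 = 3 * log 2 := by
        have : (8 : ℝ) = 2 ^ 3 := by norm_num
        rw [this, log_pow]
        norm_num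
      rw [l8] at t3
      rw [l48] at t2
      have t4 : log 10 + log 18 + 19 / 10 * y + x - 9 / 10 * (66 / 5 + 10 / 3 * x) ≤ -(1 / 2) := by
        rw [l10, l18]
        linarith
      have t5 := mul_le_mul_of_nonneg_left t4 hn0.le
      linarith
  rw [a2, a3]
  calc exp 1 * √((k * n - 1 : ℕ) : ℝ) / 5 * exp (n * (log 10 + 9 / 10 * y)) *
        exp (-(9 / 10 * ((66 / 5 + 10 / 3 * x) * n)))
      = exp 1 * √((k * n - 1 : ℕ) : ℝ) * (1 / 5) * exp (n * (log 10 + 9 / 10 * y)) *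
        exp (-(9 / 10 * ((66 / 5 + 10 / 3 * x) * n))) := by ring
    _ ≤ exp 1 * exp ((x + y) / 2) * (1 / 5) * exp (n * (log 10 + 9 / 10 * y)) *
        exp (-(9 / 10 * ((66 / 5 + 10 / 3 * x) * n))) := by gcongr
    _ = exp (1 + (x + y) / 2 - log 5 + n * (log 10 + 9 / 10 * y) -
        9 / 10 * ((66 / 5 + 10 / 3 * x) * n)) := by
        rw [a4, ← exp_add, ← exp_add, ← exp_add, ← exp_add]
        congr 1
    _ < exp (-(n * (log 18 + y + x))) := exp_lt_exp.2 key

/-- the choice of `β` -/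
theorem num_d (n k d : ℕ) (hn : 2 ≤ n) (hk : (n : ℝ) * (15 + 5 / 2 * log n) ≤ k)
    (hk' : (k : ℝ) ≤ n * (15 + 5 / 2 * log n) + 1) (hd : 100 * (n : ℝ) ^ 2 * (5 + log n) ^ 2 ≤ d) :
    ∃ β : ℕ, 8 * (n + 2 + 4 * k * n + β) ≤ 7 * d ∧
      ((66 / 5 + 10 / 3 * log n) * n / (k * n - 1 : ℕ)) * (5 * k) * (2 * k * n) < (β : ℝ) := by
  have hn' : (2 : ℝ) ≤ n := by exact_mod_cast hn
  have hn0 : (0 : ℝ) < n := by linarith
  have hx0 : 0 ≤ log (n : ℝ) := log_nonneg (by linarith)
  set x : ℝ := log n with hx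
  have hkpos : (0 : ℝ) < k := lt_of_lt_of_le (by positivity) hk
  set Q : ℝ := 66 / 5 + 10 / 3 * x with hQ
  have hQ0 : 0 < Q := by positivity
  have hkn : (60 : ℝ) ≤ k * n := by
    have h1 : (30 : ℝ) ≤ k := by
      have : 2 * 15 ≤ (n : ℝ) * (15 + 5 / 2 * x) := by
        have : (0 : ℝ) ≤ n * x := by positivity
        linarith
      linarith
    calc (60 : ℝ) = 30 * 2 := by norm_num
      _ ≤ k * n := mul_le_mul h1 hn' (by norm_num) hkpos.le
  have hkn' : 60 ≤ k * n := by exact_mod_cast hkn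
  have hM : ((k * n - 1 : ℕ) : ℝ) = k * n - 1 := by
    rw [Nat.cast_sub (by omega)]
    push_cast
    ring
  have hkn0 : (0 : ℝ) < k * n := by linarith
  refine ⟨⌈51 / 5 * (Q * (k * n))⌉₊, ?_, ?_⟩
  · have h1 := Nat.ceil_lt_add_one (a := 51 / 5 * (Q * (k * n))) (by positivity)
    have h2 : (8 * (n + 2 + 4 * k * n + ⌈51 / 5 * (Q * (k * n))⌉₊) : ℝ) ≤ 7 * d := by
      refine le_trans ?_ (mul_le_mul_of_nonneg_left hd (by norm_num : (0 : ℝ) ≤ 7))
      have h3 : (k : ℝ) * n ≤ n ^ 2 * (31 / 2 + 5 / 2 * x) := by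
        have p1 := mul_le_mul_of_nonneg_right hk' hn0.le
        have p2 : 0 ≤ ((n : ℝ) - 2) * n := mul_nonneg (by linarith) hn0.le
        have p3 : ((n : ℝ) * (15 + 5 / 2 * x) + 1) * n = n ^ 2 * (15 + 5 / 2 * x) + n := by ring
        have p4 : (n : ℝ) ^ 2 * (31 / 2 + 5 / 2 * x) = n ^ 2 * (15 + 5 / 2 * x) + n ^ 2 / 2 := by ring
        have p5 : ((n : ℝ) - 2) * n = n ^ 2 - 2 * n := by ring
        linarith
      have h4 : (k : ℝ) * n * (4 + 51 / 5 * Q) ≤ n ^ 2 * ((31 / 2 + 5 / 2 * x) * (4 + 51 / 5 * Q)) := by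
        have := mul_le_mul_of_nonneg_right h3 (by positivity : (0 : ℝ) ≤ 4 + 51 / 5 * Q)
        linarith
      have h5 : (n : ℝ) + 3 ≤ 5 / 4 * n ^ 2 := by
        have p1 : 0 ≤ ((n : ℝ) - 2) * (5 / 4 * n + 3 / 2) := by
          have : 0 ≤ (n : ℝ) - 2 := by linarith
          positivity
        linarith
      have h6 : 8 * ((31 / 2 + 5 / 2 * x) * (4 + 51 / 5 * Q)) + 10 ≤ 7 * (100 * (5 + x) ^ 2) := by
        rw [hQ]
        have p1 : 0 ≤ x ^ 2 := sq_nonneg x
        linarith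
      have h7 := mul_le_mul_of_nonneg_left h6 (by positivity : (0 : ℝ) ≤ (n : ℝ) ^ 2)
      calc (8 * (n + 2 + 4 * k * n + ⌈51 / 5 * (Q * (k * n))⌉₊) : ℝ)
          ≤ 8 * (n + 2 + 4 * k * n + (51 / 5 * (Q * (k * n)) + 1)) := by
            have := h1.le
            linarith
        _ = 8 * (k * n * (4 + 51 / 5 * Q)) + 8 * (n + 3) := by ring
        _ ≤ 8 * (n ^ 2 * ((31 / 2 + 5 / 2 * x) * (4 + 51 / 5 * Q))) + 8 * (5 / 4 * n ^ 2) := by linarith
        _ = n ^ 2 * (8 * ((31 / 2 + 5 / 2 * x) * (4 + 51 / 5 * Q)) + 10) := by ring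
        _ ≤ n ^ 2 * (7 * (100 * (5 + x) ^ 2)) := h7
        _ = _ := by ring
    exact_mod_cast h2
  · refine lt_of_lt_of_le ?_ (Nat.le_ceil _)
    rw [hM]
    have h0 : (0 : ℝ) < k * n - 1 := by linarith
    rw [div_mul_eq_mul_div, div_mul_eq_mul_div, div_lt_iff₀ h0]
    have h1 : (0 : ℝ) < Q * (k * n) := by positivity
    have h3 : 10 * (k * n : ℝ) < 51 / 5 * (k * n - 1) := by linarith
    calc Q * n * (5 * k) * (2 * k * n : ℝ) = (Q * (k * n)) * (10 * (k * n)) := by ring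
      _ < (Q * (k * n)) * (51 / 5 * (k * n - 1)) := by gcongr
      _ = _ := by ring

end Pool.Agent.H97.UG
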