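import Pool.Agent.H97.UG.Cmp2
import Pool.Agent.H97.UG.NumI

/-!
# The numbers of block A with a small constant, assembly
-/

set_option autoImplicit false

open Filter Topology Real

namespace Pool.Agent.H97.UG

open Pool.Agent.H47.KB (wt Mon)
open Pool.Agent.H37.KA (Packed)

theorem hyp_le_choose2 (n d s : ℕ) : Pool.Agent.H47.UG.hyp n d s ≤ d * (s + n).choose n := by
  have h1 := Pool.Agent.H37.KA.choose_sub_le (s + n) n d
  unfold Pool.Agent.H47.UG.hyp
  omega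

/-- The assembly, from the inequality (ii). -/
theorem numeric_of {n k d : ℕ} (hn : 2 ≤ n) (hk : (n : ℝ) * (15 + 5 / 2 * log n) ≤ k)
    (hk' : (k : ℝ) ≤ n * (15 + 5 / 2 * log n) + 1) (hd : 100 * (n : ℝ) ^ 2 * (5 + log n) ^ 2 ≤ d)
    (z : ℝ) (hz : 0 < z) (hz1 : z ≤ 1)
    (hii : 2 * (exp 1 * √((k * n - 1 : ℕ) : ℝ)) * exp (k / 2) * (2 * √k / 4 ^ k) *
      ((z⁻¹) ^ (n - 1) * exp (z * ∑ j ∈ Finset.range k, (1 + (k : ℝ) / (j + 1)))) ≤
      1 / 4 * (1 / (18 * k * n : ℝ)) ^ n) :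
    1 ≤ k ∧ k + n + 1 ≤ d ∧ ∀ c₀ : ℕ, ∃ m b p l c : ℕ, p * (5 * k) < b ∧
      (c : ℤ) + 2 * m + b ≤ l * ((d : ℤ) - n - 2) ∧ c₀ ≤ c ∧ ∀ rg rb h : ℕ,
        Nat.card {a : Fin k × Fin n →₀ ℕ // Finsupp.weight (wt n k) a = m ∧ Packed l a} ≤ rg →
        rg + rb = Nat.card {a : Fin k × Fin n →₀ ℕ // Finsupp.weight (wt n k) a = m} →
        rg * Pool.Agent.H47.UG.hyp n d c ≤ h + (b + 2 * m + c₀) *
          (rb * Pool.Agent.H47.UG.hyp (n - 1) d (d * m + c₀)) →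
        Nat.card (Mon n k m (p + 1)) * Pool.Agent.H47.UG.hyp n d ((d - 2) * m - b) < h := by
  have hn' : (2 : ℝ) ≤ n := by exact_mod_cast hn
  have hn0 : (0 : ℝ) < n := by linarith
  have hx0 : 0 ≤ log (n : ℝ) := log_nonneg (by linarith)
  have hkpos : (0 : ℝ) < k := lt_of_lt_of_le (by positivity) hk
  have hk0 : 0 < k := by exact_mod_cast hkpos
  have hk1 : 1 ≤ k := hk0
  obtain ⟨β, hβ, hq⟩ := num_d n k d hn hk hk' hd
  have hi := num_i n k hn hk hk'
  set Q : ℝ := 66 / 5 + 10 / 3 * log n with hQ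
  have hQ0 : 0 < Q := by positivity
  have hkn4 : 1 * k * n ≤ 4 * k * n := by
    have : 1 * k ≤ 4 * k := by omega
    exact Nat.mul_le_mul_right _ this
  have hkle : k ≤ 1 * k * n := by
    rw [one_mul]
    exact Nat.le_mul_of_pos_right _ (by omega)
  have hkd : k + n + 1 ≤ d := by omega
  have hkn : 2 ≤ k * n := by
    have : 1 * 2 ≤ k * n := Nat.mul_le_mul hk1 hn
    omega
  have hd1 : 1 ≤ d := by omega
  have hM0 : (0 : ℝ) < ((k * n - 1 : ℕ) : ℝ) := by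
    have : 0 < k * n - 1 := by omega
    exact_mod_cast this
  refine ⟨hk1, hkd, fun c₀ => ?_⟩
  set q : ℝ := Q * n / (k * n - 1 : ℕ) with hqdef
  have hq0 : 0 ≤ q := by positivity
  set κ : ℝ := 1 / 2 * (1 / (18 * k * n : ℝ)) ^ n * (d ^ (n + 1) / n.factorial) /
    ((k * n - 1).factorial * (k.factorial : ℝ) ^ n) with hκ
  have hH : Real.exp 1 * √((k * n - 1 : ℕ) : ℝ) / 5 * (10 * (k : ℝ) ^ (9 / 10 : ℝ)) ^ n *
      Real.exp (-(9 / 10 * (q * (k * n - 1 : ℕ)))) < (1 / (18 * k * n : ℝ)) ^ n := by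
    have h2 : q * ((k * n - 1 : ℕ) : ℝ) = Q * n := by
      rw [hqdef, div_mul_cancel₀ _ hM0.ne']
    rw [h2]
    exact hi
  have hcnt := cnt_lt2 (d := d) (by omega : 1 ≤ n) hk1 hkn hd1 q hH
  have hup := Pool.Agent.H37.UG.upper n k d (by omega) hk1 hkn hd1 q κ hq0 hcnt
  have hD : 0 < 2 * k * n := by positivity
  have htend : Tendsto (fun l : ℕ => 2 * k * n * l) atTop atTop :=
    tendsto_id.const_mul_atTop' hD
  have hup' := htend.eventually hup
  set P : ℝ := 2 * (exp 1 * √((k * n - 1 : ℕ) : ℝ)) * exp (k / 2) * (2 * √k / 4 ^ k) *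
      ((z⁻¹) ^ (n - 1) * exp (z * ∑ j ∈ Finset.range k, (1 + (k : ℝ) / (j + 1)))) with hP
  have hcmp := compare2 hn hk1 β hβ hd1 c₀ P hii
  have hcount : ∀ᶠ l : ℕ in atTop, (Nat.card {a : Fin k × Fin n →₀ ℕ //
      Finsupp.weight (wt n k) a = 2 * k * n * l ∧ ¬ Packed l a} : ℝ) ≤
      P * vol n k (2 * k * n * l) := by
    filter_upwards [eventually_ge_atTop (2 * (k * n - 1) ^ 2)] with l hl
    refine (count_le2 hn hk1 (M := k * n - 1) (by omega) hl z hz hz1).trans (le_of_eq ?_)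
    rw [hP, vol]
    ring
  obtain ⟨l, ⟨⟨hl1, hl2⟩, hl3⟩, hl4⟩ := (((hup'.and hcmp).and hcount).and
    (eventually_ge_atTop (c₀ + 1))).exists
  obtain ⟨D, hDd⟩ : ∃ D : ℕ, d = n + 2 + 4 * k * n + β + D := ⟨d - (n + 2 + 4 * k * n + β), by omega⟩
  have hD' : d - (n + 2 + 4 * k * n + β) = D := by omega
  rw [hD'] at hl2
  have hl0 : 0 < l := by omega
  have hlr : (0 : ℝ) < l := by exact_mod_cast hl0
  refine ⟨2 * k * n * l, β * l, ⌊q * ((2 * k * n * l : ℕ) : ℝ)⌋₊, l, l * D, ?_, ?_, ?_, ?_⟩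
  · have h1 : ((⌊q * ((2 * k * n * l : ℕ) : ℝ)⌋₊ : ℕ) : ℝ) ≤ q * ((2 * k * n * l : ℕ) : ℝ) :=
      Nat.floor_le (by positivity)
    have h2 : ((⌊q * ((2 * k * n * l : ℕ) : ℝ)⌋₊ * (5 * k) : ℕ) : ℝ) < ((β * l : ℕ) : ℝ) := by
      push_cast
      push_cast at h1
      calc ((⌊q * (2 * k * n * l)⌋₊ : ℕ) : ℝ) * (5 * k) ≤ q * (2 * k * n * l) * (5 * k) := by gcongr
        _ = (q * (5 * k) * (2 * k * n)) * l := by ring
        _ < β * l := by gcongr
    exact_mod_cast h2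
  · have h3 : (d : ℤ) = n + 2 + 4 * k * n + β + D := by exact_mod_cast hDd
    rw [h3]
    push_cast
    apply le_of_eq
    ring
  · have h1 : 1 ≤ D := by omega
    calc c₀ ≤ l := by omega
      _ = l * 1 := (mul_one l).symm
      _ ≤ l * D := Nat.mul_le_mul_left _ h1
  · intro rg rb h hrg hrb hineq
    have hcard := card_split
      {a : Fin k × Fin n →₀ ℕ | Finsupp.weight (wt n k) a = 2 * k * n * l} (Packed l)
    have hvol := vol_le n k (2 * k * n * l) (by omega) hk1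
    -- bad
    have hall : rg + rb ≤ Nat.card {a : Fin k × Fin n →₀ ℕ //
        Finsupp.weight (wt n k) a = 2 * k * n * l ∧ ¬ Packed l a} +
        Nat.card {a : Fin k × Fin n →₀ ℕ //
        Finsupp.weight (wt n k) a = 2 * k * n * l ∧ Packed l a} := by
      rw [hrb]
      exact hcard
    have hbadN : rb ≤ Nat.card {a : Fin k × Fin n →₀ ℕ //
        Finsupp.weight (wt n k) a = 2 * k * n * l ∧ ¬ Packed l a} := by omega
    have hbad : (rb : ℝ) ≤ P * vol n k (2 * k * n * l) := by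
      refine le_trans ?_ hl3
      exact_mod_cast hbadN
    have hgood : (1 - P) * vol n k (2 * k * n * l) ≤ (rg : ℝ) := by
      have h5 : (vol n k (2 * k * n * l) : ℝ) ≤ rg + rb := by
        refine hvol.trans ?_
        have : Nat.card {a : Fin k × Fin n →₀ ℕ // Finsupp.weight (wt n k) a = 2 * k * n * l} ≤
          rg + rb := hrb.ge
        exact_mod_cast this
      linarith
    have hlow := hl2 rg rb h hbad hgood hineq
    have h6 := hl1 (⌊q * ((2 * k * n * l : ℕ) : ℝ)⌋₊ + 1) ((d - 2) * (2 * k * n * l) - β * l) (by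
      push_cast
      exact (Nat.lt_floor_add_one _).le) (by
      refine (Nat.sub_le _ _).trans ?_
      exact Nat.mul_le_mul_right _ (Nat.sub_le _ _))
    have h7 : κ * ((2 * k * n * l : ℕ) : ℝ) ^ (n + k * n - 1) ≤ h := by
      refine le_trans (le_of_eq ?_) hlow
      have h3 : n + k * n - 1 = (k * n - 1) + n := by omega
      rw [h3, pow_add, hκ, vol]
      ring
    have h8 : ((Nat.card (Mon n k (2 * k * n * l) (⌊q * ((2 * k * n * l : ℕ) : ℝ)⌋₊ + 1)) *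
        Pool.Agent.H47.UG.hyp n d ((d - 2) * (2 * k * n * l) - β * l) : ℕ) : ℝ) < h := by
      refine lt_of_le_of_lt ?_ (h6.trans_le h7)
      have h9 := hyp_le_choose2 n d ((d - 2) * (2 * k * n * l) - β * l)
      exact_mod_cast Nat.mul_le_mul_left _ h9
    exact_mod_cast h8

end Pool.Agent.H97.UG
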