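import Pool.Agent.H54.KB.Count

/-!
# Counting the exponents without many disjoint chains, for `m = 2 k n l`

The number of exponents of weight `m = 2 k n l` which do not contain `l` disjoint chains is at most
`2 e √M exp (k / 2) (2 √k / 4 ^ k) (Y / n) ^ (n - 1) e ^ n m ^ M / (M! (k!) ^ n)`, `M = k n - 1`,
`Y = k (1 + H_k)`, for large `l`.
-/

set_option autoImplicit false

namespace Pool.Agent.H97.UG

open Finset Real Filter
open Pool.Agent.H47.KB (wt)
open Pool.Agent.H54.KB (Packed cut above card_one prod_wt exists_cut_of_not_packed exists_free)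

/-- a lower bound for the central binomial coefficient -/
theorem central_sq (k : ℕ) (hk : 1 ≤ k) : 16 ^ k ≤ 4 * k * k.centralBinom ^ 2 := by
  induction k, hk using Nat.le_induction with
  | base => norm_num [Nat.centralBinom, Nat.choose]
  | succ k hk ih =>
    have h1 := Nat.succ_mul_centralBinom_succ k
    have h2 : (k + 1) * (k + 1).centralBinom = 2 * (2 * k + 1) * k.centralBinom := h1
    have h3 : (k + 1) ^ 2 * (k + 1).centralBinom ^ 2 = 4 * (2 * k + 1) ^ 2 * k.centralBinom ^ 2 := by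
      rw [← mul_pow, h2]
      ring
    have h4 : k * (k + 1) * 16 ^ (k + 1) ≤ k * (k + 1) * (4 * (k + 1) * (k + 1).centralBinom ^ 2) := by
      calc k * (k + 1) * 16 ^ (k + 1) = 16 * (k * (k + 1)) * 16 ^ k := by ring
        _ ≤ 16 * (k * (k + 1)) * (4 * k * k.centralBinom ^ 2) := Nat.mul_le_mul_left _ ih
        _ = 4 * k * (4 * (4 * (k * (k + 1))) * k.centralBinom ^ 2) := by ring
        _ ≤ 4 * k * (4 * ((2 * k + 1) ^ 2) * k.centralBinom ^ 2) := by
          have : 4 * (k * (k + 1)) ≤ (2 * k + 1) ^ 2 := by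
            have e : (2 * k + 1) ^ 2 = 4 * (k * (k + 1)) + 1 := by ring
            omega
          gcongr
        _ = 4 * k * ((k + 1) ^ 2 * (k + 1).centralBinom ^ 2) := by rw [h3]
        _ = _ := by ring
    exact Nat.le_of_mul_le_mul_left h4 (by positivity)

theorem prod_central (k : ℕ) :
    ∏ j ∈ range k, ((j : ℝ) + 1) / ((j : ℝ) + 1 + k) = 1 / (k.centralBinom : ℝ) := by
  rw [prod_div_distrib]
  have h1 : ∏ j ∈ range k, ((j : ℝ) + 1) = (k.factorial : ℝ) := by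
    rw [← Finset.prod_range_add_one_eq_factorial]
    push_cast
    rfl
  have h2 : ∏ j ∈ range k, ((j : ℝ) + 1 + k) = ((2 * k).factorial : ℝ) / k.factorial := by
    have h3 : (2 * k).factorial = k.factorial * ∏ j ∈ range k, (k + 1 + j) := by
      have e1 := Nat.factorial_mul_ascFactorial k k
      rw [Nat.ascFactorial_eq_prod_range] at e1
      rw [e1, two_mul]
    rw [h3]
    push_cast
    rw [mul_div_cancel_left₀ _ (by positivity)]
    refine prod_congr rfl fun j _ => ?_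
    ring
  rw [h1, h2]
  have h4 : (2 * k).factorial = k.centralBinom * (k.factorial * k.factorial) := by
    have := Nat.choose_mul_factorial_mul_factorial (show k ≤ 2 * k by omega)
    rw [← this, Nat.centralBinom]
    have e : 2 * k - k = k := by omega
    rw [e]
    ring
  rw [h4]
  push_cast
  have : (0 : ℝ) < k.factorial := by positivity
  have h5 : (0 : ℝ) < k.centralBinom := by exact_mod_cast Nat.centralBinom_pos k
  field_simp

theorem central_le (k : ℕ) (hk : 1 ≤ k) : 1 / (k.centralBinom : ℝ) ≤ 2 * √k / 4 ^ k := by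
  have h1 : (16 : ℝ) ^ k ≤ 4 * k * (k.centralBinom : ℝ) ^ 2 := by exact_mod_cast central_sq k hk
  have h5 : (0 : ℝ) < k.centralBinom := by exact_mod_cast Nat.centralBinom_pos k
  have hk0 : (0 : ℝ) < k := by exact_mod_cast hk
  rw [div_le_div_iff₀ h5 (by positivity), one_mul]
  have h6 : ((4 : ℝ) ^ k) ^ 2 ≤ (2 * √k * k.centralBinom) ^ 2 := by
    rw [mul_pow, mul_pow, sq_sqrt hk0.le, ← pow_mul, mul_comm k 2, pow_mul]
    norm_num
    exact h1
  exact le_of_sq_le_sq h6 (by positivity)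

/-- the product over the cells of a cut -/
theorem prod_cut' {n k : ℕ} (hn : 0 < n) (D : Finset ℕ) (hD : D ⊆ range k) (x₀ : Fin k × Fin n)
    (hC : x₀ ∉ cut n k D) :
    ∏ x : {x : Fin k × Fin n // x ≠ x₀}, (if x.1 ∈ cut n k D then
      (((x.1.1 : ℕ) : ℝ) + 1) / (((x.1.1 : ℕ) : ℝ) + 1 + k) else 1) =
      (∏ j ∈ range k, ((j : ℝ) + 1) / ((j : ℝ) + 1 + k)) * ∏ j ∈ D, (1 + (k : ℝ) / (j + 1)) := by
  classical
  rw [Pool.Agent.H13.KB.prod_ne x₀ (fun x : Fin k × Fin n => if x ∈ cut n k D then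
      (((x.1 : ℕ) : ℝ) + 1) / (((x.1 : ℕ) : ℝ) + 1 + k) else 1)
    (by rw [if_neg hC]; norm_num), if_neg hC, div_one]
  have h1 : ∏ x : Fin k × Fin n, (if x ∈ cut n k D then
      (((x.1 : ℕ) : ℝ) + 1) / (((x.1 : ℕ) : ℝ) + 1 + k) else 1) =
      ∏ j ∈ range k \ D, ((j : ℝ) + 1) / ((j : ℝ) + 1 + k) := by
    rw [← Finset.prod_filter]
    refine Finset.prod_bij (fun x _ => (x.1 : ℕ)) (fun x hx => ?_) (fun x hx y hy hxy => ?_)
      (fun j hj => ?_) (fun x hx => rfl)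
    · rw [mem_filter, cut, mem_filter] at hx
      rw [Finset.mem_sdiff, mem_range]
      exact ⟨x.1.2, hx.2.2.1⟩
    · rw [mem_filter, cut, mem_filter] at hx hy
      have e1 : x.1 = y.1 := Fin.ext hxy
      refine Prod.ext e1 (Fin.ext ?_)
      rw [hx.2.2.2, hy.2.2.2, e1]
    · rw [Finset.mem_sdiff, mem_range] at hj
      have hlt : n - 1 - above D j < n := by omega
      refine ⟨(⟨j, hj.1⟩, ⟨n - 1 - above D j, hlt⟩), ?_, rfl⟩
      rw [mem_filter, cut, mem_filter]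
      exact ⟨mem_univ _, mem_univ _, hj.2, rfl⟩
  rw [h1, ← Finset.prod_sdiff hD, mul_assoc, ← prod_mul_distrib]
  have h2 : ∏ j ∈ D, ((j : ℝ) + 1) / ((j : ℝ) + 1 + k) * (1 + (k : ℝ) / (j + 1)) = 1 := by
    refine prod_eq_one fun j _ => ?_
    have e1 : (0 : ℝ) < (j : ℝ) + 1 := by positivity
    have e2 : (0 : ℝ) < (j : ℝ) + 1 + k := by positivity
    field_simp
  rw [h2, mul_one]

/-- the sum over the cuts -/
theorem sum_cuts (n k : ℕ) (z : ℝ) (hz : 0 < z) (hz1 : z ≤ 1) :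
    ∑ D ∈ (range k).powerset.filter (fun D => D.card < n), ∏ j ∈ D, (1 + (k : ℝ) / (j + 1)) ≤
      (z⁻¹) ^ (n - 1) * exp (z * ∑ j ∈ range k, (1 + (k : ℝ) / (j + 1))) := by
  have h1 : ∀ j : ℕ, (0 : ℝ) ≤ 1 + (k : ℝ) / (j + 1) := fun j => by positivity
  have h2 : ∏ j ∈ range k, (1 + z * (1 + (k : ℝ) / (j + 1))) ≤
      exp (z * ∑ j ∈ range k, (1 + (k : ℝ) / (j + 1))) := by
    rw [mul_sum, exp_sum]
    refine prod_le_prod (fun j _ => ?_) fun j _ => ?_
    · have := mul_nonneg hz.le (h1 j)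
      linarith
    · have := add_one_le_exp (z * (1 + (k : ℝ) / (j + 1)))
      linarith
  refine le_trans ?_ (mul_le_mul_of_nonneg_left h2 (by positivity))
  rw [prod_one_add, mul_sum]
  refine le_trans (sum_le_sum fun D hD => ?_) (sum_le_sum_of_subset_of_nonneg (filter_subset _ _)
    fun D _ _ => by
      have := prod_nonneg (s := D) fun j _ => mul_nonneg hz.le (h1 j)
      positivity)
  rw [mem_filter] at hD
  rw [prod_mul_distrib, prod_const, ← mul_assoc]
  have h3 : (1 : ℝ) ≤ z⁻¹ ^ (n - 1) * z ^ D.card := by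
    have h4 : z ^ (n - 1) ≤ z ^ D.card := pow_le_pow_of_le_one hz.le hz1 (by omega)
    rw [inv_pow, ← div_eq_inv_mul, le_div_iff₀ (by positivity), one_mul]
    exact h4
  exact le_mul_of_one_le_left (prod_nonneg fun j _ => h1 j) h3

/-- The bound for one cut. -/
theorem card_cut_le {n k l M : ℕ} (hn : 1 ≤ n) (hk : 1 ≤ k) (hM : M + 1 = k * n) (hM1 : 1 ≤ M)
    (hl : 2 * M ^ 2 ≤ l) (D : Finset ℕ) (hD : D ⊆ range k) (x₀ : Fin k × Fin n)
    (h0 : (x₀.1 : ℕ) = 0) (hC : x₀ ∉ cut n k D) :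
    (Nat.card {a : Fin k × Fin n →₀ ℕ // Finsupp.weight (wt n k) a = 2 * k * n * l ∧
      ∑ x ∈ cut n k D, a x < l} : ℝ) ≤
      2 * (exp 1 * √M) * exp (k / 2) * (1 / (k.centralBinom : ℝ)) *
        (((2 * k * n * l : ℕ) : ℝ) ^ M / (M.factorial * (k.factorial : ℝ) ^ n)) *
        ∏ j ∈ D, (1 + (k : ℝ) / (j + 1)) := by
  classical
  have hk0 : (1 : ℝ) ≤ k := by exact_mod_cast hk
  have hn0 : (1 : ℝ) ≤ n := by exact_mod_cast hn
  have hM0 : (1 : ℝ) ≤ M := by exact_mod_cast hM1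
  have hlr : 2 * (M : ℝ) ^ 2 ≤ l := by exact_mod_cast hl
  have hl0 : (0 : ℝ) < l := lt_of_lt_of_le (by positivity) hlr
  have hMr : (M : ℝ) ≤ k * n := by
    have : ((M + 1 : ℕ) : ℝ) = ((k * n : ℕ) : ℝ) := by rw [hM]
    push_cast at this
    linarith
  set m : ℝ := ((2 * k * n * l : ℕ) : ℝ) with hm
  have hmeq : m = 2 * k * n * l := by rw [hm]; push_cast; ring
  have hm0 : 0 < m := by rw [hmeq]; positivity
  set S : ℝ := M / m with hS
  have hS0 : 0 < S := by positivity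
  have h1 := card_one (m := 2 * k * n * l) (l := l) (cut n k D) x₀ h0 hC S (S * k) hS0 (by positivity)
  have h2 : S * ((2 * k * n * l : ℕ) : ℝ) + S * k * l ≤ M + k / 2 := by
    rw [← hm]
    have e1 : S * m = M := by rw [hS]; field_simp
    have e2 : S * k * l = M / (2 * n) := by rw [hS, hmeq]; field_simp
    have e3 : (M : ℝ) / (2 * n) ≤ k / 2 := by
      rw [div_le_div_iff₀ (by positivity) (by norm_num)]
      linarith
    rw [e1, e2]
    linarith
  have h2' : exp (S * ((2 * k * n * l : ℕ) : ℝ) + S * k * l) ≤ exp M * exp (k / 2) := by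
    rw [← exp_add]
    exact exp_le_exp.2 h2
  have h3 : ∏ x : {x : Fin k × Fin n // x ≠ x₀},
      (1 + (S * (((x.1.1 : ℕ) : ℝ) + 1) + if x.1 ∈ cut n k D then S * k else 0)) /
          (S * (((x.1.1 : ℕ) : ℝ) + 1) + if x.1 ∈ cut n k D then S * k else 0) ≤
      (1 + 2 * (S * k)) ^ M * ((S⁻¹) ^ M * (((1 / (k.centralBinom : ℝ)) *
        ∏ j ∈ D, (1 + (k : ℝ) / (j + 1))) * ((k.factorial : ℝ) ^ n)⁻¹)) := by
    have hc : Fintype.card {x : Fin k × Fin n // x ≠ x₀} = M := by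
      rw [Fintype.card_subtype_compl, Fintype.card_subtype_eq, Fintype.card_prod,
        Fintype.card_fin, Fintype.card_fin]
      omega
    rw [← prod_central, ← prod_cut' (by omega) D hD x₀ hC, ← prod_wt x₀ h0]
    have e1 : (1 + 2 * (S * k)) ^ M * ((S⁻¹) ^ M *
        ((∏ x : {x : Fin k × Fin n // x ≠ x₀}, (if x.1 ∈ cut n k D then
          (((x.1.1 : ℕ) : ℝ) + 1) / (((x.1.1 : ℕ) : ℝ) + 1 + k) else 1)) *
          ∏ x : {x : Fin k × Fin n // x ≠ x₀}, (((x.1.1 : ℕ) : ℝ) + 1)⁻¹)) =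
        ∏ x : {x : Fin k × Fin n // x ≠ x₀}, ((1 + 2 * (S * k)) * (S⁻¹ *
          ((if x.1 ∈ cut n k D then
          (((x.1.1 : ℕ) : ℝ) + 1) / (((x.1.1 : ℕ) : ℝ) + 1 + k) else 1) *
            (((x.1.1 : ℕ) : ℝ) + 1)⁻¹))) := by
      rw [prod_mul_distrib, prod_mul_distrib, prod_mul_distrib, prod_const, prod_const, card_univ, hc]
    rw [e1]
    have hpos : ∀ x : {x : Fin k × Fin n // x ≠ x₀}, 0 < S * (((x.1.1 : ℕ) : ℝ) + 1) := by
      intro x
      positivity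
    have hSk : 0 < S * k := by positivity
    refine prod_le_prod (fun x _ => ?_) fun x _ => ?_
    · have h4 := hpos x
      split_ifs <;> positivity
    · have h4 := hpos x
      have h6 : (0 : ℝ) ≤ ((x.1.1 : ℕ) : ℝ) := Nat.cast_nonneg _
      have h7 : (((x.1.1 : ℕ) : ℝ)) + 1 ≤ k := by exact_mod_cast x.1.1.isLt
      have h8 : S * (((x.1.1 : ℕ) : ℝ) + 1) ≤ S * k := mul_le_mul_of_nonneg_left h7 hS0.le
      have h9 : (0 : ℝ) < ((x.1.1 : ℕ) : ℝ) + 1 := by positivity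
      split_ifs with hx
      · have e3 : S⁻¹ * ((((x.1.1 : ℕ) : ℝ) + 1) / (((x.1.1 : ℕ) : ℝ) + 1 + k) *
            (((x.1.1 : ℕ) : ℝ) + 1)⁻¹) = (S * (((x.1.1 : ℕ) : ℝ) + 1) + S * k)⁻¹ := by
          have e4 : S * (((x.1.1 : ℕ) : ℝ) + 1) + S * k = S * (((x.1.1 : ℕ) : ℝ) + 1 + k) := by ring
          rw [e4, mul_inv]
          congr 1
          field_simp
        rw [e3, div_eq_mul_inv]
        have h10 : 1 + (S * (((x.1.1 : ℕ) : ℝ) + 1) + S * k) ≤ 1 + 2 * (S * k) := by linarith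
        exact mul_le_mul_of_nonneg_right h10 (by positivity)
      · have e2 : S⁻¹ * (1 * (((x.1.1 : ℕ) : ℝ) + 1)⁻¹) = (S * (((x.1.1 : ℕ) : ℝ) + 1))⁻¹ := by
          rw [one_mul, mul_inv]
        rw [e2, div_eq_mul_inv, add_zero]
        have h10 : 1 + (S * (((x.1.1 : ℕ) : ℝ) + 1)) ≤ 1 + 2 * (S * k) := by linarith
        exact mul_le_mul_of_nonneg_right h10 (by positivity)
  have h5 : (1 + 2 * (S * k)) ^ M ≤ 2 := by
    have h6 : 2 * (S * k) * M ≤ 1 / 2 := by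
      have e1 : 2 * (S * k) * M = M ^ 2 / (n * l) := by
        rw [hS, hmeq]
        field_simp
      rw [e1, div_le_div_iff₀ (by positivity) (by norm_num)]
      have e2 : (l : ℝ) ≤ n * l := le_mul_of_one_le_left hl0.le hn0
      linarith
    calc (1 + 2 * (S * k)) ^ M ≤ (exp (2 * (S * k))) ^ M := by
          have := add_one_le_exp (2 * (S * k))
          have h9 : 0 < S * k := by positivity
          gcongr
          linarith
      _ = exp (2 * (S * k) * M) := by rw [← exp_nat_mul]; congr 1; ring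
      _ ≤ exp (1 / 2) := exp_le_exp.2 h6
      _ ≤ 2 := by
          have h7 : exp (1 / 2 : ℝ) ^ 2 ≤ 2 ^ 2 := by
            rw [← exp_nat_mul]
            norm_num
            have := exp_one_lt_d9
            linarith
          exact le_of_sq_le_sq h7 (by norm_num)
  have h6 : (S⁻¹) ^ M = m ^ M / (M : ℝ) ^ M := by
    rw [hS, inv_div, div_pow]
  have h7 : exp (M : ℝ) / (M : ℝ) ^ M ≤ exp 1 * √M / M.factorial := by
    rw [div_le_div_iff₀ (by positivity) (by positivity)]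
    have h8 := Pool.Agent.H13.KB.factorial_le M hM1
    have h9 : ((M : ℝ) / exp 1) ^ M = (M : ℝ) ^ M / exp (M : ℝ) := by
      rw [div_pow, ← exp_nat_mul, mul_one]
    rw [h9] at h8
    calc exp (M : ℝ) * (M.factorial : ℝ) ≤
          exp (M : ℝ) * (exp 1 * √M * ((M : ℝ) ^ M / exp (M : ℝ))) := by gcongr
      _ = exp 1 * √M * (M : ℝ) ^ M := by field_simp
  set B : ℝ := 1 / (k.centralBinom : ℝ) with hB
  have hB0 : 0 ≤ B := by positivity
  set E : ℝ := ∏ j ∈ D, (1 + (k : ℝ) / (j + 1)) with hE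
  have hE0 : 0 ≤ E := prod_nonneg fun j _ => by positivity
  have hp0 : 0 ≤ ∏ x : {x : Fin k × Fin n // x ≠ x₀},
      (1 + (S * (((x.1.1 : ℕ) : ℝ) + 1) + if x.1 ∈ cut n k D then S * k else 0)) /
          (S * (((x.1.1 : ℕ) : ℝ) + 1) + if x.1 ∈ cut n k D then S * k else 0) := by
    refine prod_nonneg fun x _ => ?_
    have : 0 < S * (((x.1.1 : ℕ) : ℝ) + 1) := by positivity
    split_ifs <;> positivity
  refine h1.trans ?_
  calc exp (S * ((2 * k * n * l : ℕ) : ℝ) + S * k * l) * _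
      ≤ exp M * exp (k / 2) * ((1 + 2 * (S * k)) ^ M *
        ((S⁻¹) ^ M * ((B * E) * ((k.factorial : ℝ) ^ n)⁻¹))) :=
          mul_le_mul h2' h3 hp0 (by positivity)
    _ ≤ exp M * exp (k / 2) * (2 *
        ((S⁻¹) ^ M * ((B * E) * ((k.factorial : ℝ) ^ n)⁻¹))) := by gcongr
    _ = (exp M / M ^ M) * (2 * exp (k / 2) * (B * E) *
        (m ^ M * ((k.factorial : ℝ) ^ n)⁻¹)) := by
          rw [h6]
          ring
    _ ≤ (exp 1 * √M / M.factorial) * (2 * exp (k / 2) * (B * E) *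
        (m ^ M * ((k.factorial : ℝ) ^ n)⁻¹)) := by gcongr
    _ = _ := by
          field_simp

/-- The number of exponents of weight `2 k n l` without `l` disjoint chains. -/
theorem count_le2 {n k l M : ℕ} (hn : 2 ≤ n) (hk : 1 ≤ k) (hM : M + 1 = k * n)
    (hl : 2 * M ^ 2 ≤ l) (z : ℝ) (hz : 0 < z) (hz1 : z ≤ 1) :
    (Nat.card {a : Fin k × Fin n →₀ ℕ // Finsupp.weight (wt n k) a = 2 * k * n * l ∧
      ¬ Packed l a} : ℝ) ≤
      2 * (exp 1 * √M) * exp (k / 2) * (2 * √k / 4 ^ k) *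
        (((2 * k * n * l : ℕ) : ℝ) ^ M / (M.factorial * (k.factorial : ℝ) ^ n)) *
        ((z⁻¹) ^ (n - 1) * exp (z * ∑ j ∈ range k, (1 + (k : ℝ) / (j + 1)))) := by
  classical
  have hM1 : 1 ≤ M := by
    have : 1 * 2 ≤ k * n := Nat.mul_le_mul hk hn
    omega
  set m := 2 * k * n * l with hm
  let B : Finset ℕ → Set (Fin k × Fin n →₀ ℕ) := fun D =>
    {a | Finsupp.weight (wt n k) a = m ∧ ∑ x ∈ cut n k D, a x < l}
  let 𝒟 : Finset (Finset ℕ) := (range k).powerset.filter fun D => D.card < n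
  have hfin : {a : Fin k × Fin n →₀ ℕ | Finsupp.weight (wt n k) a ≤ m}.Finite :=
    Finsupp.finite_of_nat_weight_le (wt n k) (fun x => by simp [wt]) m
  have hsub : {a : Fin k × Fin n →₀ ℕ | Finsupp.weight (wt n k) a = m ∧ ¬ Packed l a} ⊆
      ⋃ D ∈ 𝒟, B D := by
    rintro a ⟨ha, ha'⟩
    obtain ⟨D, hD, hc, hs⟩ := exists_cut_of_not_packed (by omega) l a ha'
    rw [Set.mem_iUnion₂]
    exact ⟨D, mem_filter.2 ⟨mem_powerset.2 hD, hc⟩, ha, hs⟩
  have hfin' : (⋃ D ∈ 𝒟, B D).Finite := by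
    refine hfin.subset ?_
    intro a ha
    rw [Set.mem_iUnion₂] at ha
    obtain ⟨D, _, ha, _⟩ := ha
    exact ha.le
  have h1 : Nat.card {a : Fin k × Fin n →₀ ℕ // Finsupp.weight (wt n k) a = m ∧ ¬ Packed l a} ≤
      ∑ D ∈ 𝒟, (B D).ncard := by
    have h2 := Set.ncard_le_ncard hsub hfin'
    exact h2.trans (Finset.set_ncard_biUnion_le 𝒟 B)
  set K : ℝ := 2 * (exp 1 * √M) * exp (k / 2) * (1 / (k.centralBinom : ℝ)) *
    (((2 * k * n * l : ℕ) : ℝ) ^ M / (M.factorial * (k.factorial : ℝ) ^ n)) with hK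
  have hK0 : 0 ≤ K := by rw [hK]; positivity
  have h3 : ∀ D ∈ 𝒟, ((B D).ncard : ℝ) ≤ K * ∏ j ∈ D, (1 + (k : ℝ) / (j + 1)) := by
    intro D hD
    rw [mem_filter, mem_powerset] at hD
    obtain ⟨i, hi⟩ := exists_free (n := n) (k := k) hn hk D
    exact card_cut_le (n := n) (k := k) (l := l) (M := M) (by omega) hk hM hM1 hl D hD.1
      (⟨0, hk⟩, i) rfl hi
  calc (Nat.card {a : Fin k × Fin n →₀ ℕ // Finsupp.weight (wt n k) a = m ∧ ¬ Packed l a} : ℝ)
      ≤ ((∑ D ∈ 𝒟, (B D).ncard : ℕ) : ℝ) := by exact_mod_cast h1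
    _ = ∑ D ∈ 𝒟, ((B D).ncard : ℝ) := by push_cast; rfl
    _ ≤ ∑ D ∈ 𝒟, K * ∏ j ∈ D, (1 + (k : ℝ) / (j + 1)) := sum_le_sum h3
    _ = K * ∑ D ∈ 𝒟, ∏ j ∈ D, (1 + (k : ℝ) / (j + 1)) := by rw [mul_sum]
    _ ≤ K * ((z⁻¹) ^ (n - 1) * exp (z * ∑ j ∈ range k, (1 + (k : ℝ) / (j + 1)))) :=
        mul_le_mul_of_nonneg_left (sum_cuts n k z hz hz1) hK0
    _ ≤ _ := by
        refine mul_le_mul_of_nonneg_right ?_ (by positivity)
        rw [hK]
        have h4 := central_le k hk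
        gcongr

end Pool.Agent.H97.UG
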