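import Pool.Agent.H97.UG.VolB
import Pool.Agent.H37.UG.Upper
import Pool.Agent.H47.UG.Ch
import Pool.Agent.H97.UG.Count2

/-!
# The comparison of the good and the bad part for `m = 2 k n l`
-/

set_option autoImplicit false

open Filter Topology Real

namespace Pool.Agent.H97.UG

open Pool.Agent.H37.KA (hyp hyp_ge hyp_le)
open Pool.Agent.H47.KB (wt Mon)

/-- The comparison of the good and the bad part, with an arbitrary constant `c₀`. -/
theorem compare2 {n k d : ℕ} (hn : 2 ≤ n) (hk : 1 ≤ k) (β : ℕ)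
    (hd : 8 * (n + 2 + 4 * k * n + β) ≤ 7 * d) (hd1 : 1 ≤ d) (c₀ : ℕ) (P : ℝ)
    (hP : P ≤ 1 / 4 * (1 / (18 * k * n : ℝ)) ^ n) :
    ∀ᶠ l : ℕ in atTop, ∀ rg rb h : ℕ,
      (rb : ℝ) ≤ P * vol n k (2 * k * n * l) → (1 - P) * vol n k (2 * k * n * l) ≤ (rg : ℝ) →
      rg * Pool.Agent.H37.KA.hyp n d (l * (d - (n + 2 + 4 * k * n + β))) ≤
        h + (β * l + 2 * (2 * k * n * l) + c₀) *
          (rb * Pool.Agent.H37.KA.hyp (n - 1) d (d * (2 * k * n * l) + c₀)) →
      1 / 2 * (1 / (18 * k * n : ℝ)) ^ n * (d ^ (n + 1) / n.factorial) *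
        ((2 * k * n * l : ℕ) : ℝ) ^ n * vol n k (2 * k * n * l) ≤ h := by
  have hn0 : (0 : ℝ) < n := by
    have : 0 < n := by omega
    exact_mod_cast this
  have hk0 : (0 : ℝ) < k := by exact_mod_cast hk
  have hk1 : (1 : ℝ) ≤ k := by exact_mod_cast hk
  have hd0 : (0 : ℝ) < d := by exact_mod_cast hd1
  have e1 : ∀ᶠ l : ℕ in atTop, 2 * c₀ + 72 ≤ l := eventually_ge_atTop _
  have e2 : ∀ᶠ l : ℕ in atTop, 2 * n * (c₀ + n) ≤ l := eventually_ge_atTop _
  filter_upwards [e1, e2] with l h1 h2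
  intro rg rb h hbad hgood hA
  set m : ℕ := 2 * k * n * l with hm
  have hl0 : 0 < l := by omega
  have hlr : (0 : ℝ) < l := by exact_mod_cast hl0
  have hmr : (m : ℝ) = 2 * k * n * l := by rw [hm]; push_cast; ring
  have hm0 : (0 : ℝ) < m := by rw [hmr]; positivity
  -- `d ≤ 8 D`
  obtain ⟨D, hD⟩ : ∃ D : ℕ, d = n + 2 + 4 * k * n + β + D := ⟨d - (n + 2 + 4 * k * n + β), by omega⟩
  have hD' : d - (n + 2 + 4 * k * n + β) = D := by omega
  rw [hD'] at hA
  have hD2 : d ≤ 8 * D := by omega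
  have hDr : (d : ℝ) ≤ 8 * D := by exact_mod_cast hD2
  have hlD : d ≤ l * D := hD2.trans (Nat.mul_le_mul_right _ (by omega))
  have hA' : (rg : ℝ) * hyp n d (l * D) ≤
      h + ((β * l + 2 * m + c₀ : ℕ) : ℝ) * (rb * hyp (n - 1) d (d * m + c₀)) := by
    exact_mod_cast hA
  set V : ℝ := vol n k m with hV
  have hV0 : 0 ≤ V := vol_nonneg n k m
  set X : ℝ := (d : ℝ) * m with hX
  have hX0 : 0 < X := by positivity
  have hfac : (0 : ℝ) < n.factorial := by positivity
  -- lower bound of `hyp`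
  have g1 : (d : ℝ) * ((1 / (18 * k * n : ℝ)) ^ n * X ^ n) / n.factorial ≤ hyp n d (l * D) := by
    rw [div_le_iff₀ hfac]
    have h3 := hyp_ge n d (l * D) hlD
    have h4 : (d : ℝ) * (((l * D - d : ℕ) : ℝ)) ^ n ≤ n.factorial * hyp n d (l * D) := by
      exact_mod_cast h3
    rw [mul_comm (hyp n d (l * D) : ℝ)]
    refine le_trans ?_ h4
    rw [← mul_pow]
    have h5 : 1 / (18 * k * n : ℝ) * X ≤ ((l * D - d : ℕ) : ℝ) := by
      rw [Nat.cast_sub hlD, hX, hmr]
      push_cast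
      have h6 : 1 / (18 * k * n : ℝ) * (d * (2 * k * n * l)) = d * l / 9 := by
        field_simp
        ring
      rw [h6]
      have h7 : (72 : ℝ) ≤ l := by
        have : 72 ≤ l := by omega
        exact_mod_cast this
      have p1 : 0 ≤ ((l : ℝ) - 72) * d := mul_nonneg (by linarith) hd0.le
      have p2 : 0 ≤ (l : ℝ) * (8 * D - d) := mul_nonneg hlr.le (by linarith)
      linarith
    gcongr
  -- the bad part
  have g2 : ((β * l + 2 * m + c₀ : ℕ) : ℝ) * (hyp (n - 1) d (d * m + c₀) : ℝ) ≤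
      d * X ^ n / n.factorial := by
    have h3 := hyp_le (n - 1) d (d * m + c₀)
    have h4 : ((n - 1).factorial : ℝ) * hyp (n - 1) d (d * m + c₀) ≤ d * (((d * m + c₀ + (n - 1) : ℕ) : ℝ)) ^ (n - 1) := by
      exact_mod_cast h3
    have hnf : (n.factorial : ℝ) = n * (n - 1).factorial := by
      obtain ⟨a, rfl⟩ : ∃ a, n = a + 1 := ⟨n - 1, by omega⟩
      rw [Nat.factorial_succ]
      push_cast
      simp
    have h5 : ((β * l + 2 * m + c₀ : ℕ) : ℝ) ≤ d * l := by
      have : β * l + 2 * m + c₀ ≤ d * l := by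
        rw [hm, hD]
        have hc : c₀ ≤ D * l :=
          (by omega : c₀ ≤ l).trans (Nat.le_mul_of_pos_left l (by omega))
        have e0 : (n + 2 + 4 * k * n + β + D) * l =
          β * l + 2 * (2 * k * n * l) + D * l + (n + 2) * l := by ring
        rw [e0]
        exact (Nat.add_le_add_left hc _).trans (Nat.le_add_right _ _)
      exact_mod_cast this
    have h6 : (((d * m + c₀ + (n - 1) : ℕ) : ℝ)) ^ (n - 1) ≤ 2 * X ^ (n - 1) := by
      have h7 : ((d * m + c₀ + (n - 1) : ℕ) : ℝ) ≤ X * (1 + (c₀ + n) / X) := by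
        rw [mul_add, mul_div_cancel₀ _ hX0.ne', hX]
        have : ((d * m + c₀ + (n - 1) : ℕ) : ℝ) ≤ ((d * m + (c₀ + n) : ℕ) : ℝ) := by
          exact_mod_cast (by omega : d * m + c₀ + (n - 1) ≤ d * m + (c₀ + n))
        refine this.trans (le_of_eq ?_)
        push_cast
        ring
      have hx0 : (0 : ℝ) ≤ (c₀ + n) / X := by positivity
      have h8 : (1 + ((c₀ : ℝ) + n) / X) ^ (n - 1) ≤ 2 := by
        refine pow_le_two (n - 1) _ hx0 ?_
        rw [div_mul_eq_mul_div, div_le_iff₀ hX0]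
        have h9 : ((c₀ : ℝ) + n) * ((n - 1 : ℕ) : ℝ) ≤ (c₀ + n) * n := by
          have : ((n - 1 : ℕ) : ℝ) ≤ n := by exact_mod_cast Nat.sub_le n 1
          gcongr
        have h10 : 2 * (n : ℝ) * (c₀ + n) ≤ l := by exact_mod_cast h2
        have h11 : (l : ℝ) ≤ X := by
          rw [hX, hmr]
          have : (1 : ℝ) ≤ d * (2 * k * n) := by
            have a3 : 1 ≤ d * (2 * k * n) := Nat.mul_pos hd1 (by positivity)
            exact_mod_cast a3
          calc (l : ℝ) = 1 * l := (one_mul _).symm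
            _ ≤ (d * (2 * k * n)) * l := mul_le_mul_of_nonneg_right this hlr.le
            _ = d * (2 * k * n * l) := by ring
        linarith
      calc _ ≤ (X * (1 + (c₀ + n) / X)) ^ (n - 1) := by gcongr
        _ = X ^ (n - 1) * (1 + (c₀ + n) / X) ^ (n - 1) := by rw [mul_pow]
        _ ≤ X ^ (n - 1) * 2 := by gcongr
        _ = _ := by ring
    have hXn : X ^ n = X * X ^ (n - 1) := by
      rw [← pow_succ']
      congr 1
      omega
    have hnf0 : (0 : ℝ) < ((n - 1).factorial : ℝ) := by positivity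
    rw [le_div_iff₀ hfac, hnf]
    calc ((β * l + 2 * m + c₀ : ℕ) : ℝ) * (hyp (n - 1) d (d * m + c₀) : ℝ) * (n * (n - 1).factorial)
        = ((β * l + 2 * m + c₀ : ℕ) : ℝ) * n * ((n - 1).factorial * hyp (n - 1) d (d * m + c₀)) := by ring
      _ ≤ (d * l) * n * (d * (2 * X ^ (n - 1))) := by
          have := h4.trans (mul_le_mul_of_nonneg_left h6 hd0.le)
          gcongr
      _ = d * X ^ (n - 1) * (2 * n * l * d) := by ring
      _ ≤ d * X ^ (n - 1) * X := by
          have h12 : 2 * (n : ℝ) * l * d ≤ X := by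
            rw [hX, hmr]
            have : (0 : ℝ) ≤ d * (n * l) := by positivity
            have p3 := mul_le_mul_of_nonneg_right hk1 this
            linarith
          gcongr
      _ = d * X ^ n := by rw [hXn]; ring
  -- comparison
  have hs0 : (0 : ℝ) ≤ (1 / (18 * k * n : ℝ)) ^ n := by positivity
  have hs1 : (1 / (18 * k * n : ℝ)) ^ n ≤ 1 := by
    apply pow_le_one₀ (by positivity)
    rw [div_le_one (by positivity)]
    have a3 : 1 ≤ 18 * k * n := Nat.mul_pos (by omega : 0 < 18 * k) (by omega : 0 < n)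
    exact_mod_cast a3
  set s : ℝ := (1 / (18 * k * n : ℝ)) ^ n with hs
  have hP1 : P ≤ 1 / 4 := by linarith
  set Y : ℝ := d * X ^ n / n.factorial with hY
  have hY0 : 0 ≤ Y := by positivity
  have g3 : s * Y ≤ hyp n d (l * D) := by
    refine le_trans (le_of_eq ?_) g1
    rw [hY]
    ring
  have g4 : (1 - P) * V * (s * Y) ≤ (rg : ℝ) * hyp n d (l * D) := by
    have : 0 ≤ (1 - P) * V := mul_nonneg (by linarith) hV0
    gcongr
  have hPV : 0 ≤ P * V := (Nat.cast_nonneg rb).trans hbad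
  have g5 : ((β * l + 2 * m + c₀ : ℕ) : ℝ) * (rb * hyp (n - 1) d (d * m + c₀)) ≤ P * V * Y := by
    calc ((β * l + 2 * m + c₀ : ℕ) : ℝ) * (rb * hyp (n - 1) d (d * m + c₀))
        = rb * (((β * l + 2 * m + c₀ : ℕ) : ℝ) * hyp (n - 1) d (d * m + c₀)) := by ring
      _ ≤ (P * V) * Y := by gcongr
  have g6 : (1 - P) * V * (s * Y) - P * V * Y ≤ h := by linarith
  refine le_trans ?_ g6
  have e3 : 1 / 2 * s * (d ^ (n + 1) / n.factorial) * (m : ℝ) ^ n * V = 1 / 2 * s * (V * Y) := by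
    rw [hY, hX]
    ring
  rw [e3]
  have hVY : 0 ≤ V * Y := mul_nonneg hV0 hY0
  have e4 : (1 - P) * V * (s * Y) - P * V * Y = ((1 - P) * s - P) * (V * Y) := by ring
  rw [e4]
  apply mul_le_mul_of_nonneg_right _ hVY
  have p4 := mul_le_mul_of_nonneg_right hP1 hs0
  linarith

/-- the constant of the upper bound is smaller than the constant of the lower bound -/
theorem cnt_lt2 {n k d : ℕ} (hn : 1 ≤ n) (hk : 1 ≤ k) (hkn : 2 ≤ k * n) (hd1 : 1 ≤ d) (q : ℝ)
    (hH : Real.exp 1 * √((k * n - 1 : ℕ) : ℝ) / 5 * (10 * (k : ℝ) ^ (9 / 10 : ℝ)) ^ n *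
      Real.exp (-(9 / 10 * (q * (k * n - 1 : ℕ)))) < (1 / (18 * k * n : ℝ)) ^ n) :
    Pool.Agent.H37.UG.cnt n k q * ((d : ℝ) ^ (n + 1) / n.factorial) <
      1 / 2 * (1 / (18 * k * n : ℝ)) ^ n * (d ^ (n + 1) / n.factorial) /
        ((k * n - 1).factorial * (k.factorial : ℝ) ^ n) := by
  have hk0 : (0 : ℝ) < k := by exact_mod_cast hk
  have hn0 : (0 : ℝ) < n := by exact_mod_cast hn
  set M : ℕ := k * n - 1 with hM
  have hM1 : 1 ≤ M := by omega
  unfold Pool.Agent.H37.UG.cnt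
  rw [← hM]
  have hX : (0 : ℝ) < (d : ℝ) ^ (n + 1) / n.factorial := by
    have : (0 : ℝ) < d := by exact_mod_cast hd1
    positivity
  have h7 : Real.exp (M : ℝ) / (M : ℝ) ^ M ≤ Real.exp 1 * √M / M.factorial := by
    have hM0 : (0 : ℝ) < M := by exact_mod_cast hM1
    rw [div_le_div_iff₀ (by positivity) (by positivity)]
    have h8 := Pool.Agent.H13.KB.factorial_le M hM1
    have h9 : ((M : ℝ) / Real.exp 1) ^ M = (M : ℝ) ^ M / Real.exp (M : ℝ) := by
      rw [div_pow, ← Real.exp_nat_mul, mul_one]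
    rw [h9] at h8
    calc Real.exp (M : ℝ) * (M.factorial : ℝ) ≤
          Real.exp (M : ℝ) * (Real.exp 1 * √M * ((M : ℝ) ^ M / Real.exp (M : ℝ))) := by gcongr
      _ = Real.exp 1 * √M * (M : ℝ) ^ M := by field_simp
  have h10 : Real.exp ((M : ℝ) - 9 / 10 * (q * M)) = Real.exp M * Real.exp (-(9 / 10 * (q * M))) := by
    rw [← Real.exp_add]
    congr 1
  rw [h10]
  set G : ℝ := (10 * (k : ℝ) ^ (9 / 10 : ℝ)) ^ n with hG
  have hG0 : 0 ≤ G := by positivity
  calc Real.exp (M : ℝ) * Real.exp (-(9 / 10 * (q * M))) / (M : ℝ) ^ M *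
        (G / (10 * (k.factorial : ℝ) ^ n)) * ((d : ℝ) ^ (n + 1) / n.factorial)
      = (Real.exp (M : ℝ) / (M : ℝ) ^ M) * (Real.exp (-(9 / 10 * (q * M))) * G) *
        (((d : ℝ) ^ (n + 1) / n.factorial) / (10 * (k.factorial : ℝ) ^ n)) := by ring
    _ ≤ (Real.exp 1 * √M / M.factorial) * (Real.exp (-(9 / 10 * (q * M))) * G) *
        (((d : ℝ) ^ (n + 1) / n.factorial) / (10 * (k.factorial : ℝ) ^ n)) := by gcongr
    _ = (Real.exp 1 * √M / 5 * G * Real.exp (-(9 / 10 * (q * M)))) *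
        (((d : ℝ) ^ (n + 1) / n.factorial) / (2 * (M.factorial * (k.factorial : ℝ) ^ n))) := by ring
    _ < (1 / (18 * k * n : ℝ)) ^ n *
        (((d : ℝ) ^ (n + 1) / n.factorial) / (2 * (M.factorial * (k.factorial : ℝ) ^ n))) := by
        gcongr
    _ = _ := by ring

end Pool.Agent.H97.UG
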