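import Pool.Agent.H47.UG.Defs
import Pool.Agent.H50.Z.L5_Der

/-!
# (A0) The function field of a hypersurface
-/

set_option autoImplicit false

open MvPolynomial

namespace Pool.Agent.H97.UG

open Pool.Agent.H47.UG

/-- homogeneous polynomials at multiples of a point -/
theorem aeval_mul_of_hom {K M σ : Type} [Field K] [Field M] [Algebra K M] {f : MvPolynomial σ K}
    {j : ℕ} (hf : f.IsHomogeneous j) (t : M) (x : σ → M) :
    aeval (fun i => t * x i) f = t ^ j * aeval x f := by
  rw [aeval_def, aeval_def, eval₂_eq, eval₂_eq, Finset.mul_sum]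
  refine Finset.sum_congr rfl fun d hd => ?_
  have h1 : d.degree = j := by
    have h2 := hf (mem_support_iff.1 hd)
    rw [← h2, Finsupp.degree_eq_weight_one]
    rfl
  simp only [mul_pow]
  rw [Finset.prod_mul_distrib, Finset.prod_pow_eq_pow_sum]
  have h3 : ∑ i ∈ d.support, d i = j := by
    rw [← h1]
    rfl
  rw [h3]
  ring

section

variable {K : Type} [Field K] {n d : ℕ} {F : HP K n}

/-- forms of smaller degree are not divisible by `F` -/
theorem not_dvd_of_lt (hF : F.IsHomogeneous d) {P : HP K n} {s : ℕ}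
    (hP : P.IsHomogeneous s) (hs : s < d) (hP0 : P ≠ 0) : ¬ F ∣ P := by
  rintro ⟨Q, rfl⟩
  have hF0 : F ≠ 0 := left_ne_zero_of_mul hP0
  have hQ0 : Q ≠ 0 := right_ne_zero_of_mul hP0
  have h1 := hP.totalDegree hP0
  rw [totalDegree_mul_of_isDomain hF0 hQ0, hF.totalDegree hF0] at h1
  omega

end

section

variable {K : Type} [Field K] {n : ℕ} (F : HP K n)

/-- the coordinate ring of the cone -/
abbrev CR := HP K n ⧸ Ideal.span {F}

/-- its fraction field -/
abbrev FM := FractionRing (CR F)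

variable [hFI : (Ideal.span {F}).IsPrime]

noncomputable instance : Field (FM F) := inferInstance

theorem map_eq_zero_iff' (P : HP K n) : algebraMap (HP K n) (FM F) P = 0 ↔ F ∣ P := by
  rw [IsScalarTower.algebraMap_apply (HP K n) (CR F) (FM F),
    FaithfulSMul.algebraMap_eq_zero_iff]
  rw [Ideal.Quotient.algebraMap_eq, Ideal.Quotient.eq_zero_iff_mem, Ideal.mem_span_singleton]

/-- the subfield of the fractions of degree `0` -/
noncomputable def degZero : IntermediateField K (FM F) where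
  carrier := {u | ∃ (s : ℕ) (P Q : HP K n), P.IsHomogeneous s ∧ Q.IsHomogeneous s ∧
    algebraMap (HP K n) (FM F) Q ≠ 0 ∧
    u = algebraMap (HP K n) (FM F) P / algebraMap (HP K n) (FM F) Q}
  mul_mem' := by
    rintro u v ⟨s, P, Q, hP, hQ, h0, rfl⟩ ⟨s', P', Q', hP', hQ', h0', rfl⟩
    refine ⟨s + s', P * P', Q * Q', hP.mul hP', hQ.mul hQ', ?_, ?_⟩
    · rw [map_mul]
      exact mul_ne_zero h0 h0'
    · rw [map_mul, map_mul, div_mul_div_comm]
  add_mem' := by
    rintro u v ⟨s, P, Q, hP, hQ, h0, rfl⟩ ⟨s', P', Q', hP', hQ', h0', rfl⟩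
    refine ⟨s + s', P * Q' + Q * P', Q * Q', (hP.mul hQ').add (hQ.mul hP'), hQ.mul hQ', ?_, ?_⟩
    · rw [map_mul]
      exact mul_ne_zero h0 h0'
    · rw [map_add, map_mul, map_mul, map_mul, div_add_div _ _ h0 h0']
  algebraMap_mem' := by
    intro r
    refine ⟨0, C r, 1, isHomogeneous_C _ _, isHomogeneous_one _ _, ?_, ?_⟩
    · rw [map_one]
      exact one_ne_zero
    · rw [map_one, div_one]
      rfl
  inv_mem' := by
    rintro u ⟨s, P, Q, hP, hQ, h0, rfl⟩
    by_cases h1 : algebraMap (HP K n) (FM F) P = 0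
    · refine ⟨0, 0, 1, isHomogeneous_zero _ _ _, isHomogeneous_one _ _, ?_, ?_⟩
      · rw [map_one]
        exact one_ne_zero
      · rw [h1, zero_div, inv_zero, map_zero, zero_div]
    · exact ⟨s, Q, P, hQ, hP, h1, by rw [inv_div]⟩

end

end Pool.Agent.H97.UG
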