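import Pool.Agent.H37.KA.Hyp
import Pool.Agent.H37.KA.Lead
import Pool.Agent.H54.KB.Count
import Pool.Agent.H97.KB.Asymp

/-!
# The main term of the number of monomials of weight `m`
-/

set_option autoImplicit false

namespace Pool.Agent.H97.UG

open Pool.Agent.H47.KB (wt)

/-- `m^M / (M! (k!)^n)`, `M = kn - 1`: the main term of the number of monomials of weight `m`. -/
noncomputable def vol (n k m : ℕ) : ℝ :=
  (m : ℝ) ^ (k * n - 1) / ((k * n - 1).factorial * (k.factorial : ℝ) ^ n)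

lemma vol_nonneg (n k m : ℕ) : 0 ≤ vol n k m := by
  unfold vol
  positivity

lemma pow_le_two (n : ℕ) (x : ℝ) (h0 : 0 ≤ x) (h : x * n ≤ 1 / 2) : (1 + x) ^ n ≤ 2 := by
  calc (1 + x) ^ n ≤ (Real.exp x) ^ n := by
        have := Real.add_one_le_exp x
        gcongr
        linarith
    _ = Real.exp (x * n) := by rw [← Real.exp_nat_mul]; congr 1; ring
    _ ≤ Real.exp (1 / 2) := Real.exp_le_exp.2 h
    _ ≤ 2 := by
        have h7 : Real.exp (1 / 2 : ℝ) ^ 2 ≤ 4 := by
          rw [← Real.exp_nat_mul]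
          norm_num
          have := Real.exp_one_lt_d9
          linarith
        nlinarith [Real.exp_pos (1 / 2 : ℝ)]

/-- R(m) ≥ V(m) -/
theorem vol_le (n k m : ℕ) (hn : 1 ≤ n) (hk : 1 ≤ k) :
    vol n k m ≤ (Nat.card {a : Fin k × Fin n →₀ ℕ // Finsupp.weight (wt n k) a = m} : ℝ) := by
  have h1 : 1 ≤ k * n := Nat.mul_pos hk hn
  have h := H97KB.jetCount_ge n k (k * n - 1) hn hk (by omega) m
  unfold vol
  refine h.trans (le_of_eq ?_)
  unfold H97KB.jetCount
  congr 1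
  refine Nat.card_congr (Equiv.subtypeEquivRight fun a => ?_)
  exact ⟨fun h => h.1, fun h => ⟨h, Nat.zero_le _⟩⟩

lemma card_split {α : Type*} (S : Set α) (Q : α → Prop) :
    Nat.card {a // a ∈ S} ≤ Nat.card {a // a ∈ S ∧ ¬ Q a} + Nat.card {a // a ∈ S ∧ Q a} := by
  have h1 : S = {a | a ∈ S ∧ ¬ Q a} ∪ {a | a ∈ S ∧ Q a} := by
    ext a
    by_cases h : Q a <;> simp [h]
  have h2 := Set.ncard_union_le {a | a ∈ S ∧ ¬ Q a} {a | a ∈ S ∧ Q a}
  rw [← h1] at h2
  exact h2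

end Pool.Agent.H97.UG
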